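import Mathlib
import Pool.Agent.Run7.h802.HP.Iface

/-! Project HP (helper802), piece DISC (helper633): the universal family of forms with a singular
zero in the chart `x_j = 1`. -/

set_option autoImplicit false

namespace Pool.Agent.Run7.h633.HP

open MvPolynomial Pool.Agent.Run7.h802.HP

variable {n d : ℕ}

/-- the monomial with exponent `m` over the integers -/
noncomputable def mono (m : Mon n d) : MvPolynomial (Fin (n + 2)) ℤ :=
  ∏ i, X i ^ ((m.1 i : Fin (d + 1)) : ℕ)

/-- value of the linear combination of the polynomials `Q m` with coefficients `a m` at `x` -/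
noncomputable def L {R : Type} [CommRing R] (Q : Mon n d → MvPolynomial (Fin (n + 2)) ℤ)
    (a : Mon n d → R) (x : Fin (n + 2) → R) : R := ∑ m, a m * aeval x (Q m)

/-- value of the form -/
noncomputable abbrev E {R : Type} [CommRing R] (a : Mon n d → R) (x : Fin (n + 2) → R) : R :=
  L mono a x

/-- value of the first derivatives -/
noncomputable abbrev E1 {R : Type} [CommRing R] (i : Fin (n + 2)) (a : Mon n d → R)
    (x : Fin (n + 2) → R) : R := L (fun m => pderiv i (mono m)) a x

/-- value of the second derivatives -/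
noncomputable abbrev E2 {R : Type} [CommRing R] (i k : Fin (n + 2)) (a : Mon n d → R)
    (x : Fin (n + 2) → R) : R := L (fun m => pderiv i (pderiv k (mono m))) a x

lemma form_eq {R : Type} [CommRing R] (a : Mon n d → R) :
    form a = ∑ m, C (a m) * map (Int.castRingHom R) (mono m) := by
  unfold form mono
  refine Finset.sum_congr rfl fun m _ => ?_
  simp only [map_prod, map_pow, map_X]

lemma map_pderiv {R : Type} [CommRing R] (i : Fin (n + 2)) (Q : MvPolynomial (Fin (n + 2)) ℤ) :
    pderiv i (map (Int.castRingHom R) Q) = map (Int.castRingHom R) (pderiv i Q) :=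
  (MvPolynomial.pderiv_map).trans rfl

lemma eval_comb {R : Type} [CommRing R] (Q : Mon n d → MvPolynomial (Fin (n + 2)) ℤ)
    (a : Mon n d → R) (x : Fin (n + 2) → R) :
    eval x (∑ m, C (a m) * map (Int.castRingHom R) (Q m)) = L Q a x := by
  unfold L
  rw [map_sum]
  refine Finset.sum_congr rfl fun m _ => ?_
  rw [map_mul, eval_C, eval_map]
  congr 1

lemma eval_form {R : Type} [CommRing R] (a : Mon n d → R) (x : Fin (n + 2) → R) :
    eval x (form a) = E a x := by
  rw [form_eq, eval_comb]

lemma pderiv_form {R : Type} [CommRing R] (i : Fin (n + 2)) (a : Mon n d → R) :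
    pderiv i (form a) = ∑ m, C (a m) * map (Int.castRingHom R) (pderiv i (mono m)) := by
  rw [form_eq, map_sum]
  refine Finset.sum_congr rfl fun m _ => ?_
  rw [pderiv_C_mul, map_pderiv]

lemma eval_pderiv {R : Type} [CommRing R] (i : Fin (n + 2)) (a : Mon n d → R)
    (x : Fin (n + 2) → R) : eval x (pderiv i (form a)) = E1 i a x := by
  rw [pderiv_form, eval_comb]

lemma eval_pderiv2 {R : Type} [CommRing R] (i k : Fin (n + 2)) (a : Mon n d → R)
    (x : Fin (n + 2) → R) : eval x (pderiv i (pderiv k (form a))) = E2 i k a x := by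
  rw [pderiv_form, map_sum]
  rw [show (∑ m, pderiv i (C (a m) * map (Int.castRingHom R) (pderiv k (mono m)))) =
    ∑ m, C (a m) * map (Int.castRingHom R) (pderiv i (pderiv k (mono m))) from
    Finset.sum_congr rfl fun m _ => by rw [pderiv_C_mul, map_pderiv]]
  rw [eval_comb]

lemma sing_iff {R : Type} [CommRing R] (a : Mon n d → R) (x : Fin (n + 2) → R) :
    Sing a x ↔ E a x = 0 ∧ ∀ i, E1 i a x = 0 := by
  unfold Sing
  simp only [eval_form, eval_pderiv]

lemma L_add {R : Type} [CommRing R] (Q : Mon n d → MvPolynomial (Fin (n + 2)) ℤ)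
    (a b : Mon n d → R) (x : Fin (n + 2) → R) : L Q (a + b) x = L Q a x + L Q b x := by
  unfold L
  rw [← Finset.sum_add_distrib]
  exact Finset.sum_congr rfl fun m _ => by rw [Pi.add_apply, add_mul]

lemma L_smul {R : Type} [CommRing R] (Q : Mon n d → MvPolynomial (Fin (n + 2)) ℤ) (c : R)
    (a : Mon n d → R) (x : Fin (n + 2) → R) : L Q (fun m => c * a m) x = c * L Q a x := by
  unfold L
  rw [Finset.mul_sum]
  exact Finset.sum_congr rfl fun m _ => by rw [mul_assoc]

lemma map_aeval_int {R S : Type} [CommRing R] [CommRing S] {τ : Type} (f : R →+* S)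
    (x : τ → R) (Q : MvPolynomial τ ℤ) : f (aeval x Q) = aeval (fun i => f (x i)) Q := by
  have h := MvPolynomial.comp_aeval_apply (R := ℤ) (f := x) f.toIntAlgHom Q
  exact h

lemma L_map {R S : Type} [CommRing R] [CommRing S] (f : R →+* S)
    (Q : Mon n d → MvPolynomial (Fin (n + 2)) ℤ) (a : Mon n d → R) (x : Fin (n + 2) → R) :
    f (L Q a x) = L Q (fun m => f (a m)) (fun i => f (x i)) := by
  unfold L
  rw [map_sum]
  refine Finset.sum_congr rfl fun m _ => ?_
  rw [map_mul, map_aeval_int]

lemma aeval_smul_of {R : Type} [CommRing R] {e : ℕ} {Q : MvPolynomial (Fin (n + 2)) ℤ}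
    (hQ : Q.IsHomogeneous e) (c : R) (x : Fin (n + 2) → R) :
    aeval (fun i => c * x i) Q = c ^ e * aeval x Q := by
  rw [aeval_def, aeval_def, eval₂_eq', eval₂_eq', Finset.mul_sum]
  refine Finset.sum_congr rfl fun m hm => ?_
  have h1 : ∑ i, m i = e := by
    have h := hQ (mem_support_iff.1 hm)
    rw [Finsupp.weight_apply, Finsupp.sum_fintype _ _ (by simp)] at h
    simpa using h
  simp only [mul_pow, Finset.prod_mul_distrib, Finset.prod_pow_eq_pow_sum, h1]
  ring

lemma mono_hom (m : Mon n d) : (mono m).IsHomogeneous d := by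
  have h : (mono m).IsHomogeneous (∑ i, ((m.1 i : Fin (d + 1)) : ℕ)) :=
    IsHomogeneous.prod _ _ _ fun i _ => by
      simpa using (isHomogeneous_X ℤ i).pow ((m.1 i : Fin (d + 1)) : ℕ)
  rwa [m.2] at h

lemma mono1_hom (i : Fin (n + 2)) (m : Mon n d) : (pderiv i (mono m)).IsHomogeneous (d - 1) :=
  (mono_hom m).pderiv

lemma mono2_hom (i k : Fin (n + 2)) (m : Mon n d) :
    (pderiv i (pderiv k (mono m))).IsHomogeneous (d - 1 - 1) := (mono1_hom k m).pderiv

lemma L_scale {R : Type} [CommRing R] {e : ℕ} {Q : Mon n d → MvPolynomial (Fin (n + 2)) ℤ}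
    (hQ : ∀ m, (Q m).IsHomogeneous e) (a : Mon n d → R) (c : R) (x : Fin (n + 2) → R) :
    L Q a (fun i => c * x i) = c ^ e * L Q a x := by
  unfold L
  rw [Finset.mul_sum]
  refine Finset.sum_congr rfl fun m _ => ?_
  rw [aeval_smul_of (hQ m)]
  ring

lemma sing_scale {R : Type} [CommRing R] {a : Mon n d → R} {x : Fin (n + 2) → R} (c : R)
    (h : Sing a x) : Sing a (fun i => c * x i) := by
  rw [sing_iff] at h ⊢
  refine ⟨?_, fun i => ?_⟩
  · exact (L_scale mono_hom a c x).trans (mul_eq_zero_of_right _ h.1)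
  · exact (L_scale (mono1_hom i) a c x).trans (mul_eq_zero_of_right _ (h.2 i))

lemma hess_eq {R : Type} [CommRing R] (a : Mon n d → R) (x : Fin (n + 2) → R) :
    hess a x = Matrix.det (Matrix.of fun i k : Fin (n + 1) => E2 i.succ k.succ a x) := by
  unfold hess
  simp only [eval_pderiv2]

lemma hess_scale {R : Type} [CommRing R] (a : Mon n d → R) (c : R) (x : Fin (n + 2) → R) :
    hess a (fun i => c * x i) = (c ^ (d - 1 - 1)) ^ (n + 1) * hess a x := by
  rw [hess_eq, hess_eq]
  have h : (Matrix.of fun i k : Fin (n + 1) => E2 i.succ k.succ a (fun i => c * x i)) =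
      c ^ (d - 1 - 1) • (Matrix.of fun i k : Fin (n + 1) => E2 i.succ k.succ a x) := by
    ext i k
    simp only [Matrix.of_apply, Matrix.smul_apply, smul_eq_mul]
    exact L_scale (mono2_hom i.succ k.succ) a c x
  rw [h, Matrix.det_smul, Fintype.card_fin]

end Pool.Agent.Run7.h633.HP
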