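import Mathlib
import Pool.Agent.Run7.h633.HP.Base

/-! Project HP, piece DISC: special exponents, the universal family. -/

set_option autoImplicit false

namespace Pool.Agent.Run7.h633.HP

open MvPolynomial Pool.Agent.Run7.h802.HP

variable {n d : ℕ}

/-- special exponents: `m_j ≥ d - 1` -/
def IsSp (j : Fin (n + 2)) (m : Mon n d) : Prop := d ≤ (m.1 j : ℕ) + 1

instance (j : Fin (n + 2)) (m : Mon n d) : Decidable (IsSp j m) := by
  unfold IsSp; infer_instance

/-- the exponent of `X_j^(d-1) X_i` -/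
def sp (hd : 1 ≤ d) (j i : Fin (n + 2)) : Mon n d :=
  ⟨fun l => ⟨(if l = j then d - 1 else 0) + (if l = i then 1 else 0), by split_ifs <;> omega⟩, by
    simp only [Finset.sum_add_distrib, Finset.sum_ite_eq', Finset.mem_univ, if_true]
    omega⟩

lemma sp_apply (hd : 1 ≤ d) (j i l : Fin (n + 2)) :
    (((sp hd j i).1 l : Fin (d + 1)) : ℕ) =
      (if l = j then d - 1 else 0) + (if l = i then 1 else 0) := rfl

lemma isSp_sp (hd : 1 ≤ d) (j i : Fin (n + 2)) : IsSp j (sp hd j i) := by
  unfold IsSp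
  rw [sp_apply, if_pos rfl]
  omega

lemma sp_inj (hd : 1 ≤ d) (j : Fin (n + 2)) : Function.Injective (sp (n := n) hd j) := by
  intro i i' h
  by_contra hne
  have h1 := congrArg (fun m : Mon n d => ((m.1 i : Fin (d + 1)) : ℕ)) h
  simp only [sp_apply, if_true, if_neg hne] at h1
  omega

lemma exists_sp (hd : 1 ≤ d) (j : Fin (n + 2)) (m : Mon n d) (hm : IsSp j m) :
    ∃ i, sp hd j i = m := by
  classical
  have hsum := m.2
  rw [← Finset.add_sum_erase _ _ (Finset.mem_univ j)] at hsum
  have hle : ((m.1 j : Fin (d + 1)) : ℕ) ≤ d := by omega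
  unfold IsSp at hm
  have hext : ∀ i : Fin (n + 2), (∀ l, (if l = j then d - 1 else 0) + (if l = i then 1 else 0) =
      ((m.1 l : Fin (d + 1)) : ℕ)) → sp hd j i = m := by
    intro i h
    apply Subtype.ext
    funext l
    apply Fin.ext
    rw [sp_apply]
    exact h l
  by_cases hj : ((m.1 j : Fin (d + 1)) : ℕ) = d
  · refine ⟨j, hext j fun l => ?_⟩
    by_cases hl : l = j
    · subst hl
      simp only [if_true]
      omega
    · have h0 : ∑ x ∈ Finset.univ.erase j, ((m.1 x : Fin (d + 1)) : ℕ) = 0 := by omega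
      have h1 := Finset.sum_eq_zero_iff.1 h0 l (Finset.mem_erase.2 ⟨hl, Finset.mem_univ l⟩)
      simp only [if_neg hl]
      omega
  · have h1 : ∑ x ∈ Finset.univ.erase j, ((m.1 x : Fin (d + 1)) : ℕ) = 1 := by omega
    obtain ⟨i, hi, hi0⟩ : ∃ i ∈ Finset.univ.erase j, ((m.1 i : Fin (d + 1)) : ℕ) ≠ 0 := by
      by_contra hcon
      push Not at hcon
      rw [Finset.sum_eq_zero hcon] at h1
      omega
    have hij : i ≠ j := (Finset.mem_erase.1 hi).1
    rw [← Finset.add_sum_erase _ _ hi] at h1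
    have h0 : ∑ x ∈ (Finset.univ.erase j).erase i, ((m.1 x : Fin (d + 1)) : ℕ) = 0 := by omega
    refine ⟨i, hext i fun l => ?_⟩
    by_cases hl : l = j
    · subst hl
      simp only [if_true, if_neg hij.symm]
      omega
    · by_cases hli : l = i
      · subst hli
        simp only [if_true, if_neg hl]
        omega
      · have h2 := Finset.sum_eq_zero_iff.1 h0 l
          (Finset.mem_erase.2 ⟨hli, Finset.mem_erase.2 ⟨hl, Finset.mem_univ l⟩⟩)
        simp only [if_neg hl, if_neg hli]
        omega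

/-- the special exponents are indexed by the variables -/
noncomputable def spE (hd : 1 ≤ d) (j : Fin (n + 2)) : Fin (n + 2) ≃ {m : Mon n d // IsSp j m} :=
  Equiv.ofBijective (fun i => ⟨sp hd j i, isSp_sp hd j i⟩)
    ⟨fun _ _ h => sp_inj hd j (congrArg Subtype.val h),
      fun m => by
        obtain ⟨i, hi⟩ := exists_sp hd j m.1 m.2
        exact ⟨i, Subtype.ext hi⟩⟩

/-- a family with the values `s i` at the special and `b m` at the other exponents -/
noncomputable def mk {R : Type} (hd : 1 ≤ d) (j : Fin (n + 2)) (s : Fin (n + 2) → R)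
    (b : {m : Mon n d // ¬ IsSp j m} → R) (m : Mon n d) : R :=
  if h : IsSp j m then s ((spE hd j).symm ⟨m, h⟩) else b ⟨m, h⟩

lemma mk_sp {R : Type} (hd : 1 ≤ d) (j : Fin (n + 2)) (s : Fin (n + 2) → R)
    (b : {m : Mon n d // ¬ IsSp j m} → R) (i : Fin (n + 2)) : mk hd j s b (sp hd j i) = s i := by
  unfold mk
  rw [dif_pos (isSp_sp hd j i)]
  congr 1
  exact (Equiv.symm_apply_eq _).2 rfl

lemma mk_ns {R : Type} (hd : 1 ≤ d) (j : Fin (n + 2)) (s : Fin (n + 2) → R)
    (b : {m : Mon n d // ¬ IsSp j m} → R) (m : {m : Mon n d // ¬ IsSp j m}) :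
    mk hd j s b m.1 = b m := by
  unfold mk
  rw [dif_neg m.2]

lemma eq_mk {R : Type} (hd : 1 ≤ d) (j : Fin (n + 2)) (a : Mon n d → R) :
    a = mk hd j (fun i => a (sp hd j i)) (fun m => a m.1) := by
  funext m
  by_cases h : IsSp j m
  · obtain ⟨i, rfl⟩ := exists_sp hd j m h
    rw [mk_sp]
  · exact (mk_ns hd j _ (fun m => a m.1) ⟨m, h⟩).symm

lemma sum_split {M : Type} [AddCommMonoid M] (hd : 1 ≤ d) (j : Fin (n + 2)) (f : Mon n d → M) :
    ∑ m, f m = ∑ i, f (sp hd j i) + ∑ m : {m : Mon n d // ¬ IsSp j m}, f m.1 := by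
  classical
  rw [← Fintype.sum_subtype_add_sum_subtype (IsSp j) f]
  congr 1
  rw [← Equiv.sum_comp (spE hd j)]
  rfl

lemma L_mk {R : Type} [CommRing R] (hd : 1 ≤ d) (j : Fin (n + 2))
    (Q : Mon n d → MvPolynomial (Fin (n + 2)) ℤ) (s : Fin (n + 2) → R)
    (b : {m : Mon n d // ¬ IsSp j m} → R) (x : Fin (n + 2) → R) :
    L Q (mk hd j s b) x = ∑ i, s i * aeval x (Q (sp hd j i)) + L Q (mk hd j 0 b) x := by
  unfold L
  rw [sum_split hd j, sum_split hd j (fun m => mk hd j 0 b m * aeval x (Q m))]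
  simp only [mk_sp, mk_ns, Pi.zero_apply, zero_mul, Finset.sum_const_zero, zero_add]

lemma mono_sp (hd : 1 ≤ d) (j i : Fin (n + 2)) :
    mono (sp hd j i) = X j ^ (d - 1) * X i := by
  classical
  unfold mono
  simp only [sp_apply, pow_add, Finset.prod_mul_distrib]
  congr 1
  · rw [Finset.prod_eq_single j]
    · rw [if_pos rfl]
    · intro l _ hl
      rw [if_neg hl, pow_zero]
    · intro h
      exact absurd (Finset.mem_univ j) h
  · rw [Finset.prod_eq_single i]
    · rw [if_pos rfl, pow_one]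
    · intro l _ hl
      rw [if_neg hl, pow_zero]
    · intro h
      exact absurd (Finset.mem_univ i) h

lemma aeval_mono_sp {R : Type} [CommRing R] (hd : 1 ≤ d) (j i : Fin (n + 2))
    (x : Fin (n + 2) → R) (hx : x j = 1) : aeval x (mono (sp hd j i)) = x i := by
  rw [mono_sp, map_mul, map_pow, aeval_X, aeval_X, hx, one_pow, one_mul]

lemma aeval_mono1_sp {R : Type} [CommRing R] (hd : 1 ≤ d) (j i i' : Fin (n + 2)) (hi : i' ≠ j)
    (x : Fin (n + 2) → R) (hx : x j = 1) :
    aeval x (pderiv i' (mono (sp hd j i))) = if i = i' then 1 else 0 := by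
  classical
  rw [mono_sp, pderiv_mul, pderiv_pow, pderiv_X_of_ne hi.symm, mul_zero, zero_mul, zero_add,
    map_mul, map_pow, aeval_X, hx, one_pow, one_mul, pderiv_X, Pi.single_apply]
  by_cases h : i = i'
  · subst h; simp
  · simp [h, Ne.symm h]

lemma E_mk {R : Type} [CommRing R] (hd : 1 ≤ d) (j : Fin (n + 2)) (s : Fin (n + 2) → R)
    (b : {m : Mon n d // ¬ IsSp j m} → R) (x : Fin (n + 2) → R) (hx : x j = 1) :
    E (mk hd j s b) x = ∑ i, s i * x i + E (mk hd j 0 b) x := by
  refine (L_mk hd j mono s b x).trans ?_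
  simp only [aeval_mono_sp hd j _ x hx]

lemma E1_mk {R : Type} [CommRing R] (hd : 1 ≤ d) (j : Fin (n + 2)) (s : Fin (n + 2) → R)
    (b : {m : Mon n d // ¬ IsSp j m} → R) (x : Fin (n + 2) → R) (hx : x j = 1)
    (i : Fin (n + 2)) (hi : i ≠ j) :
    E1 i (mk hd j s b) x = s i + E1 i (mk hd j 0 b) x := by
  classical
  refine (L_mk hd j (fun m => pderiv i (mono m)) s b x).trans ?_
  simp only [aeval_mono1_sp hd j _ i hi x hx, mul_ite, mul_one, mul_zero, Finset.sum_ite_eq',
    Finset.mem_univ, if_true]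

/-- the special coefficients which make `x` a singular zero -/
noncomputable def sol {R : Type} [CommRing R] (hd : 1 ≤ d) (j : Fin (n + 2))
    (b : {m : Mon n d // ¬ IsSp j m} → R) (x : Fin (n + 2) → R) (i : Fin (n + 2)) : R :=
  if i = j then -(E (mk hd j 0 b) x) + ∑ l ∈ Finset.univ.erase j, E1 l (mk hd j 0 b) x * x l
  else - E1 i (mk hd j 0 b) x

/-- the coefficients of the form with the singular zero `x` -/
noncomputable def ext {R : Type} [CommRing R] (hd : 1 ≤ d) (j : Fin (n + 2))
    (b : {m : Mon n d // ¬ IsSp j m} → R) (x : Fin (n + 2) → R) : Mon n d → R :=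
  mk hd j (sol hd j b x) b

lemma E1_ext {R : Type} [CommRing R] (hd : 1 ≤ d) (j : Fin (n + 2))
    (b : {m : Mon n d // ¬ IsSp j m} → R) (x : Fin (n + 2) → R) (hx : x j = 1)
    (i : Fin (n + 2)) (hi : i ≠ j) : E1 i (ext hd j b x) x = 0 := by
  refine (E1_mk hd j _ b x hx i hi).trans ?_
  unfold sol
  rw [if_neg hi]
  exact neg_add_cancel _

lemma E_ext {R : Type} [CommRing R] (hd : 1 ≤ d) (j : Fin (n + 2))
    (b : {m : Mon n d // ¬ IsSp j m} → R) (x : Fin (n + 2) → R) (hx : x j = 1) :
    E (ext hd j b x) x = 0 := by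
  classical
  refine (E_mk hd j _ b x hx).trans ?_
  rw [← Finset.add_sum_erase _ _ (Finset.mem_univ j), hx, mul_one]
  have h : ∑ i ∈ Finset.univ.erase j, sol hd j b x i * x i =
      - ∑ l ∈ Finset.univ.erase j, E1 l (mk hd j 0 b) x * x l := by
    rw [← Finset.sum_neg_distrib]
    refine Finset.sum_congr rfl fun l hl => ?_
    unfold sol
    rw [if_neg (Finset.mem_erase.1 hl).1]
    ring
  rw [h]
  unfold sol
  rw [if_pos rfl]
  ring

lemma eq_ext {R : Type} [CommRing R] (hd : 1 ≤ d) (j : Fin (n + 2)) (a : Mon n d → R)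
    (x : Fin (n + 2) → R) (hx : x j = 1) (h0 : E a x = 0) (h1 : ∀ i, i ≠ j → E1 i a x = 0) :
    a = ext hd j (fun m => a m.1) x := by
  classical
  have ha := eq_mk hd j a
  set b : {m : Mon n d // ¬ IsSp j m} → R := fun m => a m.1 with hb
  set s : Fin (n + 2) → R := fun i => a (sp hd j i) with hs
  have hs1 : ∀ i, i ≠ j → s i = - E1 i (mk hd j 0 b) x := by
    intro i hi
    have h := h1 i hi
    rw [ha] at h
    have h2 := (E1_mk hd j s b x hx i hi).symm.trans h
    exact eq_neg_of_add_eq_zero_left h2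
  have hsol : s = sol hd j b x := by
    funext i
    unfold sol
    by_cases hi : i = j
    · subst hi
      rw [if_pos rfl]
      have h := h0
      rw [ha] at h
      have h2 := (E_mk hd i s b x hx).symm.trans h
      rw [← Finset.add_sum_erase _ _ (Finset.mem_univ i), hx, mul_one] at h2
      have h3 : ∑ l ∈ Finset.univ.erase i, s l * x l =
          - ∑ l ∈ Finset.univ.erase i, E1 l (mk hd i 0 b) x * x l := by
        rw [← Finset.sum_neg_distrib]
        refine Finset.sum_congr rfl fun l hl => ?_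
        rw [hs1 l (Finset.mem_erase.1 hl).1]
        ring
      rw [h3] at h2
      linear_combination h2
    · rw [if_neg hi]
      exact hs1 i hi
  rw [ha, hsol]
  rfl

/-- Euler's identity at a point with `x_j = 1` -/
lemma euler {R : Type} [CommRing R] (a : Mon n d → R) (x : Fin (n + 2) → R) :
    ∑ i, x i * E1 i a x = d * E a x := by
  unfold E E1 L
  simp only [Finset.mul_sum]
  rw [Finset.sum_comm]
  refine Finset.sum_congr rfl fun m _ => ?_
  have h := congrArg (aeval x) (mono_hom m).sum_X_mul_pderiv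
  rw [map_sum, map_nsmul] at h
  simp only [map_mul, aeval_X] at h
  rw [nsmul_eq_mul] at h
  calc ∑ i, x i * (a m * aeval x (pderiv i (mono m)))
      = a m * ∑ i, x i * aeval x (pderiv i (mono m)) := by
        rw [Finset.mul_sum]
        exact Finset.sum_congr rfl fun i _ => by ring
    _ = (d : R) * (a m * aeval x (mono m)) := by rw [h]; ring

lemma sing_of {R : Type} [CommRing R] (j : Fin (n + 2)) (a : Mon n d → R)
    (x : Fin (n + 2) → R) (hx : x j = 1) (h0 : E a x = 0) (h1 : ∀ i, i ≠ j → E1 i a x = 0) :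
    Sing a x := by
  classical
  rw [sing_iff]
  refine ⟨h0, fun i => ?_⟩
  by_cases hi : i = j
  · subst hi
    have h := euler a x
    rw [h0, mul_zero, ← Finset.add_sum_erase _ _ (Finset.mem_univ i), hx, one_mul,
      Finset.sum_eq_zero (fun l hl => by rw [h1 l (Finset.mem_erase.1 hl).1, mul_zero]),
      add_zero] at h
    exact h
  · exact h1 i hi

lemma ext_sing {R : Type} [CommRing R] (hd : 1 ≤ d) (j : Fin (n + 2))
    (b : {m : Mon n d // ¬ IsSp j m} → R) (x : Fin (n + 2) → R) (hx : x j = 1) :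
    Sing (ext hd j b x) x :=
  sing_of j _ x hx (E_ext hd j b x hx) (fun i hi => E1_ext hd j b x hx i hi)

lemma ext_map {R S : Type} [CommRing R] [CommRing S] (f : R →+* S) (hd : 1 ≤ d)
    (j : Fin (n + 2)) (b : {m : Mon n d // ¬ IsSp j m} → R) (x : Fin (n + 2) → R) (hx : x j = 1)
    (m : Mon n d) : f (ext hd j b x m) = ext hd j (fun m => f (b m)) (fun i => f (x i)) m := by
  have h := eq_ext hd j (fun m => f (ext hd j b x m)) (fun i => f (x i)) (by rw [hx, map_one])
    (by
      have := L_map f mono (ext hd j b x) x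
      exact this.symm.trans (by rw [show L mono (ext hd j b x) x = 0 from E_ext hd j b x hx,
        map_zero]))
    (fun i hi => by
      have := L_map f (fun m => pderiv i (mono m)) (ext hd j b x) x
      exact this.symm.trans (by
        rw [show L (fun m => pderiv i (mono m)) (ext hd j b x) x = 0 from E1_ext hd j b x hx i hi,
          map_zero]))
  have h2 := congrFun h m
  rw [h2]
  congr 1
  funext m'
  congr 1
  exact mk_ns hd j _ b m'

/-- the variables of the universal family -/
abbrev Vr (n d : ℕ) (j : Fin (n + 2)) : Type :=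
  {i : Fin (n + 2) // i ≠ j} ⊕ {m : Mon n d // ¬ IsSp j m}

/-- the universal point -/
noncomputable def xi (n d : ℕ) (j : Fin (n + 2)) (i : Fin (n + 2)) : MvPolynomial (Vr n d j) ℤ :=
  if h : i = j then 1 else X (Sum.inl ⟨i, h⟩)

/-- the universal form with a singular zero in the chart `x_j = 1` -/
noncomputable def al (hd : 1 ≤ d) (j : Fin (n + 2)) : Mon n d → MvPolynomial (Vr n d j) ℤ :=
  ext hd j (fun m => X (Sum.inr m)) (xi n d j)

lemma xi_self (j : Fin (n + 2)) : xi n d j j = 1 := dif_pos rfl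

lemma xi_ne (j i : Fin (n + 2)) (h : i ≠ j) : xi n d j i = X (Sum.inl ⟨i, h⟩) := dif_neg h

lemma al_sing (hd : 1 ≤ d) (j : Fin (n + 2)) : Sing (al hd j) (xi n d j) :=
  ext_sing hd j _ _ (xi_self j)

/-- the classifying homomorphism -/
noncomputable def psi {R : Type} [CommRing R] (j : Fin (n + 2)) (a : Mon n d → R)
    (x : Fin (n + 2) → R) : MvPolynomial (Vr n d j) ℤ →+* R :=
  (aeval (Sum.elim (fun i => x i.1) (fun m => a m.1)) :
    MvPolynomial (Vr n d j) ℤ →ₐ[ℤ] R).toRingHom

lemma psi_X {R : Type} [CommRing R] (j : Fin (n + 2)) (a : Mon n d → R)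
    (x : Fin (n + 2) → R) (v : Vr n d j) :
    psi j a x (X v) = Sum.elim (fun i => x i.1) (fun m => a m.1) v := by
  unfold psi
  exact aeval_X _ _

lemma psi_xi {R : Type} [CommRing R] (j : Fin (n + 2)) (a : Mon n d → R)
    (x : Fin (n + 2) → R) (hx : x j = 1) (i : Fin (n + 2)) : psi j a x (xi n d j i) = x i := by
  by_cases h : i = j
  · subst h
    rw [xi_self, map_one, hx]
  · rw [xi_ne j i h, psi_X]
    rfl

/-- universality -/
lemma psi_al {R : Type} [CommRing R] (hd : 1 ≤ d) (j : Fin (n + 2)) (a : Mon n d → R)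
    (x : Fin (n + 2) → R) (hx : x j = 1) (h0 : E a x = 0) (h1 : ∀ i, i ≠ j → E1 i a x = 0)
    (m : Mon n d) : psi j a x (al hd j m) = a m := by
  unfold al
  rw [ext_map (psi j a x) hd j _ _ (xi_self j)]
  have h := congrFun (eq_ext hd j a x hx h0 h1) m
  rw [h]
  congr 1
  · funext m'
    rw [psi_X]
    rfl
  · funext i
    exact psi_xi j a x hx i

/-- evaluation of integral polynomials in a commutative ring (with the standard algebra structure
over the integers) -/
noncomputable def ae {σ A : Type} [CommRing A] (α : σ → A) (f : MvPolynomial σ ℤ) : A := aeval α f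

lemma ae_map {σ R S : Type} [CommRing R] [CommRing S] (f : R →+* S) (x : σ → R)
    (Q : MvPolynomial σ ℤ) : f (ae x Q) = ae (fun i => f (x i)) Q := map_aeval_int f x Q

lemma psi_ae {R : Type} [CommRing R] (hd : 1 ≤ d) (j : Fin (n + 2)) (a : Mon n d → R)
    (x : Fin (n + 2) → R) (hx : x j = 1) (h0 : E a x = 0) (h1 : ∀ i, i ≠ j → E1 i a x = 0)
    (f : MvPolynomial (Mon n d) ℤ) : psi j a x (ae (al hd j) f) = aeval a f := by
  rw [ae_map]
  unfold ae
  congr 1
  congr 1
  funext m
  exact psi_al hd j a x hx h0 h1 m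

end Pool.Agent.Run7.h633.HP
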