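import Mathlib
import Pool.Agent.Run7.h633.HP.Univ

/-! Project HP, piece DISC: the derivatives of an equation of the universal family. -/

set_option autoImplicit false

namespace Pool.Agent.Run7.h633.HP

open MvPolynomial Pool.Agent.Run7.h802.HP

variable {n d : ℕ}

lemma der_ae {A τ : Type} [Fintype τ] [DecidableEq τ] [CommRing A] (D : Derivation ℤ A A)
    (x : τ → A) (Q : MvPolynomial τ ℤ) :
    D (ae x Q) = ∑ i, ae x (pderiv i Q) * D (x i) := by
  induction Q using MvPolynomial.induction_on with
  | C c =>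
    unfold ae
    rw [aeval_C, Derivation.map_algebraMap]
    simp
  | add p q hp hq =>
    unfold ae at hp hq ⊢
    simp only [map_add, add_mul, Finset.sum_add_distrib, hp, hq]
  | mul_X p k hp =>
    unfold ae at hp ⊢
    rw [map_mul, aeval_X, Derivation.leibniz, hp]
    simp only [Derivation.leibniz, smul_eq_mul, map_add, map_mul, aeval_X, pderiv_X]
    simp only [add_mul, Finset.sum_add_distrib]
    congr 1
    · rw [Finset.sum_eq_single k]
      · simp
      · intro i _ hi
        simp [Pi.single_apply, hi.symm, hi]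
      · intro h
        exact absurd (Finset.mem_univ k) h
    · rw [Finset.mul_sum]
      exact Finset.sum_congr rfl fun i _ => by ring

lemma der_L {A : Type} [CommRing A] (D : Derivation ℤ A A)
    (Q : Mon n d → MvPolynomial (Fin (n + 2)) ℤ) (a : Mon n d → A) (x : Fin (n + 2) → A) :
    D (L Q a x) = L Q (fun m => D (a m)) x + ∑ i, L (fun m => pderiv i (Q m)) a x * D (x i) := by
  unfold L
  simp only [Finset.sum_mul]
  rw [Finset.sum_comm, ← Finset.sum_add_distrib, map_sum]
  refine Finset.sum_congr rfl fun m _ => ?_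
  have h := der_ae D x (Q m)
  unfold ae at h
  rw [Derivation.leibniz, h, smul_eq_mul, smul_eq_mul, Finset.mul_sum]
  rw [add_comm, mul_comm (D (a m))]
  congr 1
  exact Finset.sum_congr rfl fun i _ => by ring

lemma L_zero {R : Type} [CommRing R] (Q : Mon n d → MvPolynomial (Fin (n + 2)) ℤ)
    (x : Fin (n + 2) → R) : L Q 0 x = 0 := by
  unfold L
  simp

lemma ext_zero {R : Type} [CommRing R] (hd : 1 ≤ d) (j : Fin (n + 2)) (x : Fin (n + 2) → R)
    (hx : x j = 1) : ext hd j (0 : {m : Mon n d // ¬ IsSp j m} → R) x = 0 := by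
  have h := eq_ext hd j (0 : Mon n d → R) x hx (L_zero _ _) (fun i _ => L_zero _ _)
  exact h.symm

/-- a family which is zero at the nonspecial exponents and has the singular zero `x` is zero -/
lemma eq_zero_of {R : Type} [CommRing R] (hd : 1 ≤ d) (j : Fin (n + 2)) (w : Mon n d → R)
    (x : Fin (n + 2) → R) (hx : x j = 1) (h0 : E w x = 0) (h1 : ∀ i, i ≠ j → E1 i w x = 0)
    (hw : ∀ m, ¬ IsSp j m → w m = 0) : w = 0 := by
  have h := eq_ext hd j w x hx h0 h1
  rw [h, show (fun m : {m : Mon n d // ¬ IsSp j m} => w m.1) = 0 from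
    funext fun m => hw m.1 m.2]
  exact ext_zero hd j x hx

/-- a derivation over the integers from an additive map with the Leibniz rule -/
def toInt {A : Type} [CommRing A] (D : A →+ A) (h : ∀ a b, D (a * b) = a * D b + b * D a) :
    Derivation ℤ A A := Derivation.mk' D.toIntLinearMap (fun a b => h a b)

/-- the universal family has derivations with prescribed values -/
lemma exists_der (hd : 1 ≤ d) (p : Fin (n + 1) → MvPolynomial (Vr n d 0) ℤ)
    (q : Mon n d → MvPolynomial (Vr n d 0) ℤ) :
    ∃ D : Derivation ℤ (MvPolynomial (Vr n d 0) ℤ) (MvPolynomial (Vr n d 0) ℤ),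
      (∀ i : Fin (n + 1), D (xi n d 0 i.succ) = p i) ∧ ∀ m, ¬ IsSp 0 m → D (al hd 0 m) = q m := by
  refine ⟨mkDerivation ℤ (Sum.elim (fun i : {i : Fin (n + 2) // i ≠ 0} => p (i.1.pred i.2))
    (fun m : {m : Mon n d // ¬ IsSp 0 m} => q m.1)), fun i => ?_, fun m hm => ?_⟩
  · rw [xi_ne 0 i.succ (Fin.succ_ne_zero i), mkDerivation_X]
    simp
  · have h1 : al hd 0 m = X (Sum.inr ⟨m, hm⟩) := by
      unfold al ext
      exact mk_ns hd 0 _ (fun m => X (Sum.inr m)) ⟨m, hm⟩
    rw [h1, mkDerivation_X]
    rfl

/-- DER, abstract form -/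
theorem der_abs {A : Type} [CommRing A] [IsDomain A] (hd : 1 ≤ d) (α : Mon n d → A)
    (ξ : Fin (n + 2) → A) (hξ0 : ξ 0 = 1) (hsing : Sing α ξ) (hdet : hess α ξ ≠ 0)
    (hex : ∀ (p : Fin (n + 1) → A) (q : Mon n d → A), ∃ D : Derivation ℤ A A,
      (∀ i : Fin (n + 1), D (ξ i.succ) = p i) ∧ ∀ m, ¬ IsSp 0 m → D (α m) = q m)
    (h : MvPolynomial (Mon n d) ℤ) (hh : ae α h = 0) (v : Mon n d → A) (hv : E v ξ = 0) :
    ∑ m, ae α (pderiv m h) * v m = 0 := by
  classical
  set M : Matrix (Fin (n + 1)) (Fin (n + 1)) A :=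
    Matrix.of fun k i : Fin (n + 1) => E2 i.succ k.succ α ξ with hM
  have hMdet : M.det = hess α ξ := by
    rw [hess_eq, ← Matrix.det_transpose]
    rfl
  set g : Fin (n + 1) → A := fun l => E1 l.succ v ξ with hg
  set δ := M.det with hδ
  obtain ⟨D, hDξ, hDα⟩ := hex (fun i => - ∑ l, M.adjugate i l * g l) (fun m => δ * v m)
  have hDξ0 : D (ξ 0) = 0 := by
    rw [hξ0, Derivation.map_one_eq_zero]
  have hS := (sing_iff _ _).1 hsing
  -- first derivatives
  have hE1 : ∀ k : Fin (n + 1), E1 k.succ (fun m => D (α m)) ξ = δ * g k := by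
    intro k
    have h1 := der_L D (fun m => pderiv k.succ (mono m)) α ξ
    have h2 : L (fun m => pderiv k.succ (mono m)) α ξ = 0 := hS.2 k.succ
    rw [h2, map_zero, Fin.sum_univ_succ, hDξ0, mul_zero, zero_add] at h1
    have h3 : ∑ i : Fin (n + 1), L (fun m => pderiv i.succ (pderiv k.succ (mono m))) α ξ *
        D (ξ i.succ) = - (δ * g k) := by
      have h4 : ∀ i : Fin (n + 1), L (fun m => pderiv i.succ (pderiv k.succ (mono m))) α ξ *
          D (ξ i.succ) = - ∑ l, M k i * M.adjugate i l * g l := by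
        intro i
        rw [hDξ i, mul_neg, Finset.mul_sum]
        congr 1
        refine Finset.sum_congr rfl fun l _ => ?_
        rw [← mul_assoc]
        rfl
      rw [Finset.sum_congr rfl fun i _ => h4 i, Finset.sum_neg_distrib, Finset.sum_comm]
      congr 1
      have h5 : ∀ l, ∑ i, M k i * M.adjugate i l * g l = (if k = l then δ else 0) * g l := by
        intro l
        rw [← Finset.sum_mul]
        congr 1
        have h6 := congrFun (congrFun (Matrix.mul_adjugate M) k) l
        rw [Matrix.mul_apply] at h6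
        rw [h6, Matrix.smul_apply, Matrix.one_apply]
        simp [hδ]
      rw [Finset.sum_congr rfl fun l _ => h5 l]
      simp
    rw [h3] at h1
    have h7 : L (fun m => pderiv k.succ (mono m)) (fun m => D (α m)) ξ = δ * g k := by
      linear_combination -h1
    exact h7
  have hE : E (fun m => D (α m)) ξ = 0 := by
    have h1 := der_L D mono α ξ
    have h2 : L mono α ξ = 0 := hS.1
    have h3 : ∀ i, L (fun m => pderiv i (mono m)) α ξ * D (ξ i) = 0 := by
      intro i
      have h4 : L (fun m => pderiv i (mono m)) α ξ = 0 := hS.2 i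
      rw [h4, zero_mul]
    rw [h2, map_zero, Finset.sum_congr rfl fun i _ => h3 i, Finset.sum_const_zero, add_zero] at h1
    exact h1.symm
  -- all derivatives of the coefficients
  have hw : (fun m => D (α m)) + (fun m => (-δ) * v m) = 0 := by
    apply eq_zero_of hd 0 _ ξ hξ0
    · refine (L_add _ _ _ _).trans ?_
      rw [L_smul]
      have h1 : L mono v ξ = 0 := hv
      have h2 : L mono (fun m => D (α m)) ξ = 0 := hE
      rw [h1, h2, mul_zero, add_zero]
    · intro i hi
      obtain ⟨k, rfl⟩ := Fin.exists_succ_eq.2 hi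
      refine (L_add _ _ _ _).trans ?_
      rw [L_smul]
      have h1 : L (fun m => pderiv k.succ (mono m)) (fun m => D (α m)) ξ = δ * g k := hE1 k
      rw [h1]
      have h2 : g k = L (fun m => pderiv k.succ (mono m)) v ξ := rfl
      rw [← h2]
      ring
    · intro m hm
      have h1 := hDα m hm
      simp only [Pi.add_apply]
      rw [h1]
      ring
  have hD : ∀ m, D (α m) = δ * v m := by
    intro m
    have h1 := congrFun hw m
    simp only [Pi.add_apply, Pi.zero_apply] at h1
    linear_combination h1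
  have hfin := der_ae D α h
  rw [hh, map_zero] at hfin
  have h2 : ∑ m, ae α (pderiv m h) * D (α m) = δ * ∑ m, ae α (pderiv m h) * v m := by
    rw [Finset.mul_sum]
    refine Finset.sum_congr rfl fun m _ => ?_
    rw [hD m]
    ring
  rw [h2] at hfin
  rcases mul_eq_zero.1 hfin.symm with h3 | h3
  · exact absurd (hMdet ▸ h3) hdet
  · exact h3

/-- DER: the derivatives of an equation `h` of the universal family -/
theorem der_main (hd : 1 ≤ d) (hdet : hess (al (n := n) hd 0) (xi n d 0) ≠ 0)
    (h : MvPolynomial (Mon n d) ℤ) (hh : ae (al (n := n) hd 0) h = 0)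
    (v : Mon n d → MvPolynomial (Vr n d 0) ℤ) (hv : E v (xi n d 0) = 0) :
    ∑ m, ae (al hd 0) (pderiv m h) * v m = 0 := by
  refine der_abs hd (al hd 0) (xi n d 0) (xi_self 0) (al_sing hd 0) hdet (fun p q => ?_) h hh v hv
  obtain ⟨D, h1, h2⟩ := exists_der hd p q
  refine ⟨toInt D.toLinearMap.toAddMonoidHom (fun a b => D.leibniz a b), h1, h2⟩

/-- the derivatives of an equation `h` of the universal family are proportional to the monomials -/
theorem der_prop (hd : 1 ≤ d) (hdet : hess (al (n := n) hd 0) (xi n d 0) ≠ 0)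
    (h : MvPolynomial (Mon n d) ℤ) (hh : ae (al (n := n) hd 0) h = 0) (m : Mon n d) :
    ae (al hd 0) (pderiv m h) = ae (xi n d 0) (mono m) * ae (al hd 0) (pderiv (sp hd 0 0) h) := by
  classical
  have h1 := der_main hd hdet h hh
    (fun l => (if l = m then 1 else 0) - (if l = sp hd 0 0 then ae (xi n d 0) (mono m) else 0)) ?_
  · simp only [mul_sub, mul_ite, mul_one, mul_zero, Finset.sum_sub_distrib, Finset.sum_ite_eq',
      Finset.mem_univ, if_true] at h1
    linear_combination h1
  · unfold E L
    simp only [sub_mul, ite_mul, one_mul, zero_mul, Finset.sum_sub_distrib, Finset.sum_ite_eq',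
      Finset.mem_univ, if_true]
    rw [aeval_mono_sp hd 0 0 _ (xi_self 0), xi_self, mul_one]
    exact sub_self _

end Pool.Agent.Run7.h633.HP
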