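import Mathlib
import Pool.Agent.Run7.h633.HP.Der

/-! Project HP, piece DISC: assembly. -/

set_option autoImplicit false

namespace Pool.Agent.Run7.h633.HP

open MvPolynomial Pool.Agent.Run7.h802.HP

variable {n d : ℕ}

lemma hess_map {R S : Type} [CommRing R] [CommRing S] (f : R →+* S) (a : Mon n d → R)
    (x : Fin (n + 2) → R) : f (hess a x) = hess (fun m => f (a m)) (fun i => f (x i)) := by
  rw [hess_eq, hess_eq, RingHom.map_det]
  congr 1
  ext i k
  simp only [RingHom.mapMatrix_apply, Matrix.map_apply, Matrix.of_apply]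
  exact L_map f _ a x

/-- algebraic independence over the integers with the standard algebra structure -/
def AI {σ A : Type} [CommRing A] (α : σ → A) : Prop := AlgebraicIndependent ℤ α

lemma min_ae (hmin : S_MIN) {σ A : Type} [Fintype σ] [CommRing A] [IsDomain A] [CharZero A]
    (α : σ → A) (hα : ¬ AI α) : ∃ h : MvPolynomial σ ℤ, h ≠ 0 ∧ ae α h = 0 ∧
    (∃ m, ae α (pderiv m h) ≠ 0) ∧
    ∀ g : MvPolynomial σ ℤ, ae α g ≠ 0 →
      IsRelPrime (map (Int.castRingHom ℚ) h) (map (Int.castRingHom ℚ) g) := hmin σ A α hα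

lemma not_AI {σ τ : Type} [Fintype σ] [Fintype τ] (hc : Fintype.card τ < Fintype.card σ)
    (α : σ → MvPolynomial τ ℤ) : ¬ AI α := by
  intro hA
  unfold AI at hA
  have h1 := hA.cardinalMk_le_trdeg
  have h2 := MvPolynomial.trdeg_of_isDomain (ι := τ) (S := ℤ)
  have h3 : Cardinal.mk σ ≤ Cardinal.mk τ := by
    rw [← Cardinal.lift_id (Cardinal.mk τ), ← h2]
    convert h1
    exact Subsingleton.elim _ _
  simp only [Cardinal.mk_fintype, Nat.cast_le] at h3
  omega

lemma card_Vr (hd : 1 ≤ d) : Fintype.card (Vr n d 0) < Fintype.card (Mon n d) := by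
  classical
  have h1 : Fintype.card (Mon n d) = Fintype.card {m : Mon n d // IsSp 0 m} +
      Fintype.card {m : Mon n d // ¬ IsSp 0 m} := by
    rw [← Fintype.card_sum]
    exact Fintype.card_congr (Equiv.sumCompl (IsSp (n := n) (d := d) 0)).symm
  have h2 : Fintype.card {m : Mon n d // IsSp 0 m} = n + 2 := by
    rw [← Fintype.card_congr (spE (n := n) hd 0), Fintype.card_fin]
  have h3 : Fintype.card {i : Fin (n + 2) // i ≠ 0} = n + 1 := by
    rw [Fintype.card_subtype_compl]
    simp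
  rw [Fintype.card_sum, h1, h2, h3]
  omega

lemma sing_map {R S : Type} [CommRing R] [CommRing S] (f : R →+* S) {a : Mon n d → R}
    {x : Fin (n + 2) → R} (h : Sing a x) : Sing (fun m => f (a m)) (fun i => f (x i)) := by
  rw [sing_iff] at h ⊢
  refine ⟨?_, fun i => ?_⟩
  · have h1 := L_map f mono a x
    exact h1.symm.trans (by rw [show L mono a x = 0 from h.1, map_zero])
  · have h1 := L_map f (fun m => pderiv i (mono m)) a x
    exact h1.symm.trans (by
      rw [show L (fun m => pderiv i (mono m)) a x = 0 from h.2 i, map_zero])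

/-- `psi_ae` for a singular zero -/
lemma psi_sing {R : Type} [CommRing R] (hd : 1 ≤ d) (j : Fin (n + 2)) (a : Mon n d → R)
    (x : Fin (n + 2) → R) (hx : x j = 1) (h : Sing a x)
    (f : MvPolynomial (Mon n d) ℤ) : psi j a x (ae (al hd j) f) = ae a f := by
  rw [sing_iff] at h
  exact psi_ae hd j a x hx h.1 (fun i _ => h.2 i) f

lemma ae_mono_sp {R : Type} [CommRing R] (hd : 1 ≤ d) (j i : Fin (n + 2))
    (x : Fin (n + 2) → R) : ae x (mono (sp hd j i)) = x j ^ (d - 1) * x i := by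
  unfold ae
  rw [mono_sp, map_mul, map_pow, aeval_X, aeval_X]

lemma ae_mul {σ R : Type} [CommRing R] (x : σ → R) (f g : MvPolynomial σ ℤ) :
    ae x (f * g) = ae x f * ae x g := map_mul (aeval x) f g

lemma ae_X {σ R : Type} [CommRing R] (x : σ → R) (s : σ) :
    ae x (X s) = x s := aeval_X x s

lemma ae_hess {R : Type} [CommRing R] (a : Mon n d → R)
    (b : Mon n d → MvPolynomial (Mon n d) ℤ) (r : Fin (n + 2) → MvPolynomial (Mon n d) ℤ) :
    ae a (hess b r) = hess (fun m => ae a (b m)) (fun i => ae a (r i)) :=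
  hess_map ((aeval a : MvPolynomial (Mon n d) ℤ →ₐ[ℤ] R).toRingHom) b r

/-- the second polynomial -/
noncomputable def gp (r : Fin (n + 2) → MvPolynomial (Mon n d) ℤ) : MvPolynomial (Mon n d) ℤ :=
  r 0 * hess (fun m => X m) r

lemma ae_gp {R : Type} [CommRing R] (a : Mon n d → R)
    (r : Fin (n + 2) → MvPolynomial (Mon n d) ℤ) :
    ae a (gp r) = ae a (r 0) * hess a (fun i => ae a (r i)) := by
  unfold gp
  rw [ae_mul, ae_hess]
  simp only [ae_X]

/-- relations on the universal family in the chart `j` from those in the chart `0` -/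
lemma chart_K {K : Type} [Field K] (hd : 1 ≤ d) (j : Fin (n + 2))
    (ι : MvPolynomial (Vr n d j) ℤ →+* K) (hι : Function.Injective ι)
    (hc : ι (xi n d j 0) ≠ 0) (f : MvPolynomial (Mon n d) ℤ) :
    (ae (al (n := n) hd 0) f = 0 → ae (al (n := n) hd j) f = 0) ∧
    ∀ g, ae (al (n := n) hd 0) f = ae (xi n d 0) (mono (sp hd j j)) * ae (al hd 0) g →
      ae (al (n := n) hd j) g = xi n d j 0 ^ d * ae (al hd j) f := by
  set c := ι (xi n d j 0) with hcdef
  set a : Mon n d → K := fun m => ι (al hd j m) with ha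
  set z : Fin (n + 2) → K := fun i => c⁻¹ * ι (xi n d j i) with hz
  have hz0 : z 0 = 1 := inv_mul_cancel₀ hc
  have hzj : z j = c⁻¹ := by
    simp only [hz, xi_self, map_one, mul_one]
  have hS : Sing a z := sing_scale _ (sing_map ι (al_sing hd j))
  have key : ∀ f : MvPolynomial (Mon n d) ℤ,
      ι (ae (al hd j) f) = psi 0 a z (ae (al hd 0) f) := by
    intro f
    rw [psi_sing hd 0 a z hz0 hS, ae_map]
  refine ⟨fun hf => ?_, fun g hg => ?_⟩
  · apply hι
    rw [key, hf, map_zero, map_zero]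
  · have h1 := congrArg (psi 0 a z) hg
    rw [map_mul, ← key, ← key, ae_mono_sp, map_mul, map_pow, psi_xi 0 a z hz0, hzj,
      ← pow_succ, Nat.sub_add_cancel hd] at h1
    apply hι
    rw [map_mul, map_pow, ← hcdef, h1, ← mul_assoc, ← mul_pow, mul_inv_cancel₀ hc, one_pow,
      one_mul]

lemma chart (hd : 1 ≤ d) (j : Fin (n + 2)) (hj : j ≠ 0) (f : MvPolynomial (Mon n d) ℤ) :
    (ae (al (n := n) hd 0) f = 0 → ae (al (n := n) hd j) f = 0) ∧
    ∀ g, ae (al (n := n) hd 0) f = ae (xi n d 0) (mono (sp hd j j)) * ae (al hd 0) g →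
      ae (al (n := n) hd j) g = xi n d j 0 ^ d * ae (al hd j) f := by
  have hι : Function.Injective (algebraMap (MvPolynomial (Vr n d j) ℤ)
    (FractionRing (MvPolynomial (Vr n d j) ℤ))) := IsFractionRing.injective _ _
  refine chart_K hd j _ hι (fun h => ?_) f
  have hc0 : xi n d j 0 ≠ 0 := by
    rw [xi_ne j 0 hj.symm]
    exact X_ne_zero _
  exact hc0 (hι (by rw [h, map_zero]))

/-- the field part -/
lemma field_part (hd : 1 ≤ d) (h : MvPolynomial (Mon n d) ℤ)
    (hh : ae (al (n := n) hd 0) h = 0)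
    (hprop : ∀ m, ae (al (n := n) hd 0) (pderiv m h) =
      ae (xi n d 0) (mono m) * ae (al hd 0) (pderiv (sp hd 0 0) h))
    (k : Type) [Field k] (a : Mon n d → k) (x : Fin (n + 2) → k) (hx : x ≠ 0) (hS : Sing a x) :
    ae a h = 0 ∧ (ae a (gp fun i => pderiv (sp hd 0 i) h) ≠ 0 →
      ae a (pderiv (sp hd 0 0) h) ≠ 0 ∧ x 0 ≠ 0 ∧
        (∀ i, x i * ae a (pderiv (sp hd 0 0) h) = x 0 * ae a (pderiv (sp hd 0 i) h)) ∧
        (x 0 = 1 → hess a x ≠ 0)) := by
  rw [ae_gp]
  by_cases hx0 : x 0 = 0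
  · -- singular zero at infinity
    obtain ⟨j, hj⟩ : ∃ j, x j ≠ 0 := by
      by_contra hcon
      push Not at hcon
      exact hx (funext hcon)
    have hj0 : j ≠ 0 := by
      rintro rfl
      exact hj hx0
    have hSy : Sing a (fun i => (x j)⁻¹ * x i) := sing_scale _ hS
    have hyj : (fun i => (x j)⁻¹ * x i) j = 1 := inv_mul_cancel₀ hj
    have key := psi_sing hd j a _ hyj hSy
    have hzero : ae a (pderiv (sp hd 0 0) h) = 0 := by
      have h1 := (chart hd j hj0 (pderiv (sp hd j j) h)).2 (pderiv (sp hd 0 0) h)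
        (hprop (sp hd j j))
      rw [← key, h1, map_mul, map_pow, psi_xi j a _ hyj]
      simp only [hx0, mul_zero]
      rw [zero_pow (by omega), zero_mul]
    refine ⟨?_, fun hne => ?_⟩
    · rw [← key, (chart hd j hj0 h).1 hh, map_zero]
    · exfalso
      apply hne
      rw [hzero, zero_mul]
  · have hSy : Sing a (fun i => (x 0)⁻¹ * x i) := sing_scale _ hS
    have hy0 : (fun i => (x 0)⁻¹ * x i) 0 = 1 := inv_mul_cancel₀ hx0
    have key := psi_sing hd 0 a _ hy0 hSy
    have hria : ∀ i, ae a (pderiv (sp hd 0 i) h) =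
        (x 0)⁻¹ * x i * ae a (pderiv (sp hd 0 0) h) := by
      intro i
      rw [← key, ← key, hprop, ae_mono_sp, map_mul, map_mul, map_pow, psi_xi 0 a _ hy0,
        psi_xi 0 a _ hy0, inv_mul_cancel₀ hx0, one_pow, one_mul]
    refine ⟨?_, fun hne => ⟨?_, hx0, ?_, ?_⟩⟩
    · rw [← key, hh, map_zero]
    · intro h1
      apply hne
      rw [h1, zero_mul]
    · intro i
      rw [hria i]
      field_simp
    · intro hx1 h1
      apply hne
      have h2 : (fun i => ae a (pderiv (sp hd 0 i) h)) =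
          fun i => ae a (pderiv (sp hd 0 0) h) * x i := by
        funext i
        rw [hria i, hx1]
        ring
      rw [h2, hess_scale, h1, mul_zero, mul_zero]

/-- the ideal part -/
lemma ideal_part (hd : 1 ≤ d) (h : MvPolynomial (Mon n d) ℤ)
    (hh : ae (al (n := n) hd 0) h = 0) (R : Type) [CommRing R] (a : Mon n d → R)
    (x : Fin (n + 2) → R) (hx : x 0 = 1) :
    ae a h ∈ Ideal.span (insert (eval x (form a))
      (Set.range fun i : Fin (n + 1) => eval x (pderiv i.succ (form a)))) := by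
  set I : Ideal R := Ideal.span (insert (eval x (form a))
      (Set.range fun i : Fin (n + 1) => eval x (pderiv i.succ (form a)))) with hI
  have hE : E (fun m => Ideal.Quotient.mk I (a m)) (fun i => Ideal.Quotient.mk I (x i)) = 0 := by
    have h1 := L_map (Ideal.Quotient.mk I) mono a x
    refine h1.symm.trans ?_
    rw [Ideal.Quotient.eq_zero_iff_mem]
    apply Ideal.subset_span
    left
    exact (eval_form a x).symm
  have hE1 : ∀ i, i ≠ 0 →
      E1 i (fun m => Ideal.Quotient.mk I (a m)) (fun i => Ideal.Quotient.mk I (x i)) = 0 := by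
    intro i hi
    obtain ⟨k, rfl⟩ := Fin.exists_succ_eq.2 hi
    have h1 := L_map (Ideal.Quotient.mk I) (fun m => pderiv k.succ (mono m)) a x
    refine h1.symm.trans ?_
    rw [Ideal.Quotient.eq_zero_iff_mem]
    apply Ideal.subset_span
    right
    exact ⟨k, eval_pderiv _ _ _⟩
  have h2 := psi_ae hd 0 (fun m => Ideal.Quotient.mk I (a m))
    (fun i => Ideal.Quotient.mk I (x i)) (by rw [hx, map_one]) hE hE1 h
  rw [hh, map_zero] at h2
  have h3 : Ideal.Quotient.mk I (ae a h) = 0 := (ae_map _ _ _).trans h2.symm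
  exact (Ideal.Quotient.eq_zero_iff_mem).1 h3

/-- the second polynomial does not vanish on the universal family -/
lemma gp_ne (hd : 1 ≤ d) (hdet : hess (al (n := n) hd 0) (xi n d 0) ≠ 0)
    (h : MvPolynomial (Mon n d) ℤ) (m0 : Mon n d)
    (hm0 : ae (al (n := n) hd 0) (pderiv m0 h) ≠ 0)
    (hprop : ∀ m, ae (al (n := n) hd 0) (pderiv m h) =
      ae (xi n d 0) (mono m) * ae (al hd 0) (pderiv (sp hd 0 0) h)) :
    ae (al (n := n) hd 0) (gp fun i => pderiv (sp hd 0 i) h) ≠ 0 := by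
  have hr0 : ae (al (n := n) hd 0) (pderiv (sp hd 0 0) h) ≠ 0 := by
    intro h1
    apply hm0
    rw [hprop m0]
    exact mul_eq_zero_of_right _ h1
  rw [ae_gp]
  refine mul_ne_zero hr0 ?_
  have h1 : (fun i => ae (al (n := n) hd 0) (pderiv (sp hd 0 i) h)) =
      fun i => ae (al hd 0) (pderiv (sp hd 0 0) h) * xi n d 0 i := by
    funext i
    rw [hprop, ae_mono_sp, xi_self, one_pow, one_mul, mul_comm]
  rw [h1, hess_scale]
  exact mul_ne_zero (pow_ne_zero _ (pow_ne_zero _ hr0)) hdet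

theorem disc_ae (hmin : S_MIN) (hd : 1 ≤ d) (hdet : hess (al (n := n) hd 0) (xi n d 0) ≠ 0) :
    ∃ (h g : MvPolynomial (Mon n d) ℤ) (r : Fin (n + 2) → MvPolynomial (Mon n d) ℤ),
    h ≠ 0 ∧ IsRelPrime (map (Int.castRingHom ℚ) h) (map (Int.castRingHom ℚ) g) ∧
    (∀ (k : Type) [Field k] (a : Mon n d → k) (x : Fin (n + 2) → k), x ≠ 0 → Sing a x →
      ae a h = 0 ∧ (ae a g ≠ 0 → ae a (r 0) ≠ 0 ∧ x 0 ≠ 0 ∧
        (∀ i, x i * ae a (r 0) = x 0 * ae a (r i)) ∧ (x 0 = 1 → hess a x ≠ 0))) ∧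
    (∀ (R : Type) [CommRing R] (a : Mon n d → R) (x : Fin (n + 2) → R), x 0 = 1 →
      ae a h ∈ Ideal.span (insert (eval x (form a))
        (Set.range fun i : Fin (n + 1) => eval x (pderiv i.succ (form a))))) := by
  obtain ⟨h, h0, hh, ⟨m0, hm0⟩, hrel⟩ := min_ae hmin (al (n := n) hd 0) (not_AI (card_Vr hd) _)
  have hprop := der_prop hd hdet h hh
  exact ⟨h, gp fun i => pderiv (sp hd 0 i) h, fun i => pderiv (sp hd 0 i) h, h0,
    hrel _ (gp_ne hd hdet h m0 hm0 hprop), field_part hd h hh hprop, ideal_part hd h hh⟩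

theorem disc_of (hmin : S_MIN)
    (hdet : ∀ (n d : ℕ) (hd : 3 ≤ d), hess (al (n := n) (d := d) (by omega) 0) (xi n d 0) ≠ 0) :
    S_DISC := fun n d _ hd3 => disc_ae hmin (by omega) (hdet n d hd3)

end Pool.Agent.Run7.h633.HP
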