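import Mathlib
import Pool.Agent.Run7.h633.HP.Asm
import Pool.Agent.Run7.h590.HP.DETNE

/-! Project HP (helper802), piece DISC (helper633, with helper590's `det_ne`). -/

set_option autoImplicit false

namespace Pool.Agent.Run7.h633.HP

open MvPolynomial Pool.Agent.Run7.h802.HP

/-- The discriminant hypersurface and the second hypersurface. -/
theorem disc : S_MIN → S_DISC := fun hmin =>
  disc_of hmin fun _ _ hd => Run7.h590.HP.det_ne hd

end Pool.Agent.Run7.h633.HP

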